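import Pool.Agent.Helper28.OHS.Goals
import Pool.Agent.Helper65.OH.GEO

/-!
# Packet OHS-CUB (MP_c578c8_lc): cubes and cells
-/

namespace Pool.Agent.Helper56.OHS

open Pool.Agent.Helper65.LinSpace Pool.Agent.Helper78.Mpc Pool.Agent.Helper28.Ram Finset
open Pool.Agent.Helper65.OH (Prm Conf InBox co bz cz GoodQ co_lt div_lt)
open Pool.Agent.Helper28.OHS

theorem cub : CUB_stmt where
  cube := by
    intro D m p hD hd ho hp k hk
    have e1 : dig (2 ^ m.κ) (bz m p) k = (co m.κ p k + m.o) / m.d :=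
      dig_tab (fun j _ => div_lt (co_lt hp j) ho) hk
    have e2 : dig m.d (cz m p) k = (co m.κ p k + m.o) % m.d :=
      dig_tab (fun j _ => Nat.mod_lt _ hd) hk
    rw [e1, e2, Nat.div_add_mod', Nat.add_sub_cancel]
    exact Nat.mod_eq_of_lt (co_lt hp k)
  cell := by
    intro D m p hD hp
    subst hD
    have h1 : ∀ k < m.D, dig (2 ^ m.κ) (cd m p) k = co m.κ p k := fun k hk =>
      dig_tab (fun j _ => co_lt hp j) hk
    have h2 : ∀ k < m.D, m.cq (2 ^ (m.S + 1) * cd m p) k = co m.κ p k := by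
      intro k hk
      unfold Prm.cq
      rw [Nat.mul_div_cancel_left _ (by positivity)]
      exact h1 k hk
    refine ⟨?_, ?_, ?_, h1⟩
    · unfold Prm.blk bz
      exact tab_congr fun k hk => by rw [h2 k hk]
    · unfold Prm.cel cz
      exact tab_congr fun k hk => by rw [h2 k hk]
    · rw [pow_mul]
      exact tab_lt fun j _ => co_lt hp j
  uniq := by
    intro D m C q q' hD h h'
    subst hD
    have e1 : q % 2 ^ (m.S + 1) = q' % 2 ^ (m.S + 1) := h.wq.trans h'.wq.symm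
    have hlt : ∀ a : ℕ, a < 2 ^ m.sg → a / 2 ^ (m.S + 1) < (2 ^ m.κ) ^ m.D := by
      intro a ha
      rw [Nat.div_lt_iff_lt_mul (by positivity), mul_comm, ← pow_mul, ← pow_add]
      exact ha
    have e2 : q / 2 ^ (m.S + 1) = q' / 2 ^ (m.S + 1) := by
      rw [← tab_dig (q / 2 ^ (m.S + 1)) m.D (hlt q h.lt),
        ← tab_dig (q' / 2 ^ (m.S + 1)) m.D (hlt q' h'.lt)]
      refine tab_congr fun k hk => ?_
      have h1 := h.cq ⟨k, hk⟩
      have h2 := h'.cq ⟨k, hk⟩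
      have h3 : ((m.cq q k : ℕ) : ℤ) = ((m.cq q' k : ℕ) : ℤ) := h1.trans h2.symm
      exact_mod_cast h3
    rw [← Nat.div_add_mod q (2 ^ (m.S + 1)), ← Nat.div_add_mod q' (2 ^ (m.S + 1)), e1, e2]
  surj := by
    intro D m x hD hκ hx
    subst hD
    have hx' : x < (2 ^ m.κ) ^ m.D := by
      rw [← pow_mul]
      exact hx
    refine ⟨fun k => (dig (2 ^ m.κ) x k : ℤ) - 2 ^ (m.κ - 1), ?_, ?_⟩
    · intro k
      have h1 : dig (2 ^ m.κ) x k < 2 ^ m.κ := dig_lt (by positivity) _ _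
      have h2 : ((dig (2 ^ m.κ) x k : ℕ) : ℤ) < 2 ^ m.κ := by exact_mod_cast h1
      constructor
      · have h3 : (0 : ℤ) ≤ ((dig (2 ^ m.κ) x k : ℕ) : ℤ) := Int.natCast_nonneg _
        linarith
      · linarith
    · unfold cd
      have e : ∀ k < m.D, co m.κ (fun k : Fin m.D => (dig (2 ^ m.κ) x k : ℤ) - 2 ^ (m.κ - 1)) k =
          dig (2 ^ m.κ) x k := by
        intro k hk
        unfold co
        rw [dif_pos hk]
        have h4 : ((dig (2 ^ m.κ) x ((⟨k, hk⟩ : Fin m.D) : ℕ) : ℕ) : ℤ) - 2 ^ (m.κ - 1) +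
            2 ^ (m.κ - 1) = ((dig (2 ^ m.κ) x k : ℕ) : ℤ) := by
          ring
        rw [h4, Int.toNat_natCast]
      rw [tab_congr e, tab_dig x m.D hx']

end Pool.Agent.Helper56.OHS
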